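import Mathlib
import Pool.Agent.W635.CHSys
import Pool.Agent.W635.CHDefs

/-!
# The forcing notion for a well-ordered set of regular uncountable type

The same as `Pool.Agent.W635.CHForce`, for an arbitrary well-ordered set `K` of regular uncountable
order type in place of `ω₂`.
-/

namespace Pool.Agent.Y670.CH

open Cardinal Pool.Agent.H652G Pool.Agent.Helper669.Forcing Pool.Agent.W635.CHDefs Pool.Agent.W635.CH

set_option linter.unusedSectionVars false
set_option linter.unusedVariables false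

variable {K : Type} [LinearOrder K] [WellFoundedLT K]

/-- the index set: `(false, k)` are the Cohen coordinates, `(true, k)` the Hechler coordinates -/
abbrev JK (K : Type) : Type := Bool ×ₗ K

/-- the Cohen coordinates -/
def cc : WithTop (JK K) → Prop
  | ⊤ => False
  | (j : (JK K)) => (ofLex j).1 = false

/-- the Cohen coordinate `k` -/
abbrev cn (k : K) : WithTop (JK K) := ((toLex (false, k) : (JK K)) : WithTop (JK K))
/-- the Hechler coordinate `k` -/
abbrev hn (k : K) : WithTop (JK K) := ((toLex (true, k) : (JK K)) : WithTop (JK K))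

theorem cc_cn (k : K) : cc (cn k) := rfl
theorem not_cc_hn (k : K) : ¬ cc (hn k) := fun h => by
  have : (true : Bool) = false := h
  exact absurd this (by decide)
theorem not_cc_top : ¬ cc (⊤ : WithTop (JK K)) := fun h => h

theorem cases_cc (ξ : WithTop (JK K)) : (∃ k, ξ = cn k) ∨ (∃ k, ξ = hn k) ∨ ξ = ⊤ := by
  induction ξ using WithTop.recTopCoe with
  | top => exact Or.inr (Or.inr rfl)
  | coe j =>
    obtain ⟨⟨b, s⟩, rfl⟩ := toLex.surjective j
    cases b
    · exact Or.inl ⟨s, rfl⟩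
    · exact Or.inr (Or.inl ⟨s, rfl⟩)

theorem cn_lt_hn (a b : K) : cn a < hn b := by
  refine WithTop.coe_lt_coe.2 ?_
  rw [Prod.Lex.toLex_lt_toLex]
  exact Or.inl (show (false : Bool) < true by decide)

theorem hn_lt_hn {a b : K} (h : a < b) : hn a < hn b := by
  refine WithTop.coe_lt_coe.2 ?_
  rw [Prod.Lex.toLex_lt_toLex]
  exact Or.inr ⟨rfl, h⟩

theorem hn_le_hn {a b : K} (h : a ≤ b) : hn a ≤ hn b := by
  rcases h.eq_or_lt with rfl | h
  · exact le_rfl
  · exact (hn_lt_hn h).le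

theorem low_cc : Low (cc (K := K)) := by
  intro ξ η hη hξ
  rcases cases_cc η with ⟨a, rfl⟩ | ⟨a, rfl⟩ | rfl
  · rcases cases_cc ξ with ⟨b, rfl⟩ | ⟨b, rfl⟩ | rfl
    · exact absurd (cc_cn b) hξ
    · exact cn_lt_hn a b
    · exact WithTop.coe_lt_top _
  · exact absurd hη (not_cc_hn a)
  · exact absurd hη not_cc_top

/-- the system -/
noncomputable abbrev SK (K : Type) [LinearOrder K] [WellFoundedLT K] : Sys (WithTop (JK K)) := SyC cc

/-- the notion of forcing -/
abbrev PK (K : Type) [LinearOrder K] [WellFoundedLT K] : Type := Cd (SK K)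

theorem good_SK (ξ : WithTop (JK K)) : Good (SK K) ξ := good_SyC ξ

theorem ccc_PK : CCC (PK K) := cond_ccc good_SK

/-- `K` has a regular uncountable order type -/
structure Reg (K : Type) [LinearOrder K] : Prop where
  bdd : ∀ T : Set K, #T < #K → ∃ b, ∀ s ∈ T, s < b
  seg : ∀ γ : K, #(Set.Iio γ) < #K
  big : ℵ₀ < #K

theorem exists_level (hK : Reg K) (A : Set (PK K)) (hA : A.Countable) :
    ∃ b : K, ∀ a ∈ A, Below a.1 (hn b) := by
  obtain ⟨j, hj⟩ := exists_below (κ := ℵ₀) le_rfl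
    (fun T hT => by
      obtain ⟨b, hb⟩ := hK.bdd ((fun j : (JK K) => (ofLex j).2) '' T)
        ((mk_image_le.trans hT).trans_lt hK.big)
      refine ⟨toLex (true, b), fun s hs => ?_⟩
      have h1 := hb _ ⟨s, hs, rfl⟩
      rw [Prod.Lex.lt_iff]
      rcases h : (ofLex s).1 with _ | _
      · exact Or.inl (by show false < true; decide)
      · exact Or.inr ⟨rfl, h1⟩) (A := A) (le_aleph0_iff_set_countable.2 hA)
  obtain ⟨b, hb⟩ := hK.bdd {(ofLex j).2} (by
    rw [mk_singleton]; exact one_lt_aleph0.trans hK.big)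
  refine ⟨b, fun a ha => (hj a ha).mono (WithTop.coe_le_coe.2 ?_)⟩
  have h1 := hb _ rfl
  refine le_of_lt ?_
  rw [Prod.Lex.lt_iff]
  rcases h : (ofLex j).1 with _ | _
  · exact Or.inl (by show false < true; decide)
  · exact Or.inr ⟨rfl, h1⟩

/-! ### Moving conditions -/

variable {σ : Equiv.Perm (WithTop (JK K))}

/-- the condition `p` moved by `σ` -/
noncomputable def mv (hσ : Fx cc σ) (p : (PK K)) : (PK K) :=
  ⟨act σ p.1, act_mem low_cc ⊤ not_cc_top σ hσ p.1 p.2⟩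

theorem mv_le (hσ : Fx cc σ) {p q : (PK K)} (h : q ≤ p) : mv hσ q ≤ mv hσ p :=
  act_le hσ low_cc (fun η hη => pr_co p.2.1 hη) (fun η hη => pr_co q.2.1 hη) h

theorem mv_symm (hσ : Fx cc σ) (p : (PK K)) : mv hσ (mv hσ.symm p) = p :=
  Subtype.ext (act_symm σ p.1)

theorem mv_symm' (hσ : Fx cc σ) (p : (PK K)) : mv hσ.symm (mv hσ p) = p :=
  Subtype.ext (by
    have := act_symm σ.symm p.1
    rwa [Equiv.symm_symm] at this)

theorem exists_dom (p : (PK K)) : ∃ D : Set (WithTop (JK K)), D.Countable ∧ Sup cc D p.1 :=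
  exists_Sup low_cc ⊤ not_cc_top p.1 p.2

/-- a countable set of coordinates deciding the elements of a countable set -/
theorem exists_dom' {A : Set (PK K)} (hA : A.Countable) :
    ∃ D : Set (WithTop (JK K)), D.Countable ∧ ∀ a ∈ A, Sup cc D a.1 := by
  choose D h1 h2 using exists_dom (K := K)
  refine ⟨⋃ a ∈ A, D a, hA.biUnion fun a _ => h1 a, fun a ha σ hσ hfix => ?_⟩
  exact h2 a σ hσ fun η hη => hfix η (Set.mem_biUnion ha hη)

theorem mv_meets (hσ : Fx cc σ) {N A : Set (PK K)} {D : Set (WithTop (JK K))}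
    (hA1 : ∀ a ∈ A, a ∈ meets N ∨ a ∈ fnot (meets N)) (hA2 : ∀ p, ∃ a ∈ A, Compat a p)
    (hA3 : ∀ a ∈ A, Sup cc D a.1) (hfix : ∀ η ∈ D, σ η = η) {p : (PK K)} (hp : p ∈ meets N) :
    mv hσ p ∈ meets N := by
  refine rgl_meets N _ fun q hq => ?_
  obtain ⟨a, ha, t, ht1, ht2⟩ := hA2 q
  rcases hA1 a ha with h | h
  · exact ⟨t, ht2, down_meets _ _ h _ ht1⟩
  · exfalso
    have hfix' : ∀ η ∈ D, σ.symm η = η := fun η hη => by
      rw [Equiv.symm_apply_eq]; exact (hfix η hη).symm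
    have h1 : mv hσ.symm a = a := Subtype.ext (hA3 a ha σ.symm hσ.symm hfix')
    have h2 : mv hσ.symm t ≤ a := by
      have := mv_le hσ.symm ht1
      rwa [h1] at this
    have h3 : mv hσ.symm t ≤ p := by
      have := mv_le hσ.symm (ht2.trans hq)
      rwa [mv_symm'] at this
    exact h _ h2 (down_meets _ _ hp _ h3)

/-! ### The generic objects -/

/-- the name of the `k`-th Cohen real -/
def wn (k : K) (n : ℕ) (b : Bool) : Set (PK K) :=
  {p | n < (p.1.st (cn k)).length ∧ decide ((p.1.st (cn k)).getD n 0 ≠ 0) = b}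

/-- the name of the `k`-th Hechler real -/
def fn (k : K) (n m : ℕ) : Set (PK K) :=
  {p | n < (p.1.st (hn k)).length ∧ (p.1.st (hn k)).getD n 0 = m}

theorem down_wn (k : K) (n : ℕ) (b : Bool) : Down (wn k n b) := by
  rintro p ⟨h1, h2⟩ q hq
  obtain ⟨h3, h4⟩ := st_mono hq (cn k) h1
  exact ⟨h3, by rw [h4]; exact h2⟩

theorem down_fn (k : K) (n m : ℕ) : Down (fn k n m) := by
  rintro p ⟨h1, h2⟩ q hq
  obtain ⟨h3, h4⟩ := st_mono hq (hn k) h1
  exact ⟨h3, by rw [h4]; exact h2⟩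

theorem isFun_wn (k : K) (p : (PK K)) : p ∈ IsFun (wn k) := by
  refine ⟨fun n => mem_fex.2 fun q hq => ?_, fun n a b => fimp_of fun q hq hq' => ?_⟩
  · obtain ⟨r, h1, h2, h3, _⟩ := exists_long good_SK q.2 (WithTop.coe_lt_top (toLex (false, k))) (n + 1)
    exact ⟨⟨r, h1⟩, h2, _, meets_of_mem ⟨(show n < (r.st (cn k)).length from h3), rfl⟩⟩
  · obtain ⟨r, hr, h1⟩ := exists_of_meets (down_wn k n a) hq'.1
    obtain ⟨s, hs, h2⟩ := exists_of_meets (down_wn k n b) (down_meets _ _ hq'.2 _ hr)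
    show a = b
    rw [← (down_wn k n a _ h1 _ hs).2, h2.2]

theorem isFun_fn (k : K) (p : (PK K)) : p ∈ IsFun (fn k) := by
  refine ⟨fun n => mem_fex.2 fun q hq => ?_, fun n a b => fimp_of fun q hq hq' => ?_⟩
  · obtain ⟨r, h1, h2, h3, _⟩ := exists_long good_SK q.2 (WithTop.coe_lt_top (toLex (true, k))) (n + 1)
    exact ⟨⟨r, h1⟩, h2, _, meets_of_mem ⟨(show n < (r.st (hn k)).length from h3), rfl⟩⟩
  · obtain ⟨r, hr, h1⟩ := exists_of_meets (down_fn k n a) hq'.1
    obtain ⟨s, hs, h2⟩ := exists_of_meets (down_fn k n b) (down_meets _ _ hq'.2 _ hr)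
    show a = b
    rw [← (down_fn k n a _ h1 _ hs).2, h2.2]

theorem mv_wn (hσ : Fx cc σ) {a b : K} (h : σ (cn a) = cn b) {n : ℕ} {i : Bool} {p : (PK K)}
    (hp : p ∈ wn a n i) : mv hσ p ∈ wn b n i := by
  have h1 : (mv hσ p).1.st (cn b) = p.1.st (cn a) := by
    show p.1.st (σ.symm (cn b)) = _
    rw [← h, Equiv.symm_apply_apply]
  obtain ⟨h2, h3⟩ := hp
  refine ⟨?_, ?_⟩
  · rw [h1]; exact h2
  · rw [h1]; exact h3

theorem mv_meets_wn (hσ : Fx cc σ) {a b : K} (h : σ (cn a) = cn b) {n : ℕ} {i : Bool} {p : (PK K)}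
    (hp : p ∈ meets (wn a n i)) : mv hσ p ∈ meets (wn b n i) := by
  intro q hq
  have h1 : mv hσ.symm q ≤ p := by
    have := mv_le hσ.symm hq
    rwa [mv_symm'] at this
  obtain ⟨r, hr, s, hs, hrs⟩ := hp _ h1
  refine ⟨mv hσ r, ?_, mv hσ s, mv_wn hσ h hs, mv_le hσ hrs⟩
  have := mv_le hσ hr
  rwa [mv_symm] at this

/-- the swap of two Cohen coordinates -/
theorem fx_swap (a b : K) : Fx cc (Equiv.swap (cn a) (cn b)) := fun ξ hξ =>
  Equiv.swap_apply_of_ne_of_ne (fun h => hξ (h ▸ cc_cn a)) (fun h => hξ (h ▸ cc_cn b))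

theorem down_InOpen (x : ℕ → Bool → Set (PK K)) (O : List Bool → Set (PK K)) : Down (InOpen x O) :=
  down_fex _

theorem rgl_InOpen (x : ℕ → Bool → Set (PK K)) (O : List Bool → Set (PK K)) : Rgl (InOpen x O) :=
  rgl_fex _

theorem cn_injective : Function.Injective (cn (K := K)) := fun a b h => by
  have h1 : (toLex (false, a) : (JK K)) = toLex (false, b) := WithTop.coe_injective h
  have h2 := toLex.injective h1
  exact (Prod.mk.injEq _ _ _ _ ▸ h2).2

theorem concentrated {A : Set K} (hA : ¬ A.Countable) (p : (PK K)) : p ∈ Concentrated wn A := by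
  classical
  intro O
  refine fimp_of fun q _ hq => ?_
  -- the antichains
  have hAnt : ∀ s : List Bool, ∃ B : Set (PK K), B.Countable ∧
      (∀ a ∈ B, a ∈ meets (O s) ∨ a ∈ fnot (meets (O s))) ∧ ∀ p, ∃ a ∈ B, Compat a p := by
    intro s
    obtain ⟨B, h1, h2, h3, _⟩ := exists_antichain ccc_PK
      {p : (PK K) | p ∈ meets (O s) ∨ p ∈ fnot (meets (O s))} (fun p => by
        rcases exists_or_fnot (meets (O s)) p with ⟨q, hq, h⟩ | h
        · exact ⟨q, hq, Or.inl h⟩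
        · exact ⟨p, le_rfl, Or.inr h⟩)
    exact ⟨B, h2, h1, h3⟩
  choose B hB1 hB2 hB3 using hAnt
  obtain ⟨D, hD1, hD2⟩ := exists_dom' (A := insert q (⋃ s, B s))
    ((Set.countable_iUnion hB1).insert q)
  have hE : (cn ⁻¹' D).Countable := hD1.preimage cn_injective
  have key : ∀ ξ : K, cn ξ ∉ D → q ∈ InOpen (wn ξ) O := by
    intro ξ hξ
    obtain ⟨a, haA, ha⟩ : ∃ a ∈ A, cn a ∉ D := by
      by_contra hcon
      push Not at hcon
      exact hA (hE.mono hcon)
    set σ := Equiv.swap (cn a) (cn ξ) with hσdef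
    have hσ : Fx cc σ := fx_swap a ξ
    have hfix : ∀ η ∈ D, σ η = η := fun η hη =>
      Equiv.swap_apply_of_ne_of_ne (fun h => ha (h ▸ hη)) (fun h => hξ (h ▸ hη))
    have hqq : mv hσ q = q := Subtype.ext (hD2 q (Set.mem_insert _ _) σ hσ hfix)
    have haξ : σ (cn a) = cn ξ := Equiv.swap_apply_left _ _
    have h1 : q ∈ InOpen (wn a) O := hq a haA
    refine mem_fex.2 fun q' hq' => ?_
    have h2 : mv hσ.symm q' ≤ q := by
      have := mv_le hσ.symm (hq'.trans_eq hqq.symm)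
      rwa [mv_symm'] at this
    obtain ⟨r, hr, s, hs1, hs2⟩ := mem_fex.1 h1 _ h2
    refine ⟨mv hσ r, ?_, s, ?_, fun i hi => mv_meets_wn hσ haξ (hs2 i hi)⟩
    · have := mv_le hσ hr
      rwa [mv_symm] at this
    · exact mv_meets hσ (hB2 s) (hB3 s)
        (fun b hb => hD2 b (Set.mem_insert_of_mem _ (Set.mem_iUnion.2 ⟨s, hb⟩))) hfix hs1
  -- enumerate the exceptional set
  obtain ⟨a0, _⟩ : A.Nonempty := by
    by_contra h
    rw [Set.not_nonempty_iff_eq_empty] at h
    exact hA (h ▸ Set.countable_empty)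
  obtain ⟨e, he⟩ := (hE.insert a0).exists_eq_range ⟨a0, Set.mem_insert _ _⟩
  refine mem_fex_of_mem (fun n k => {_p : (PK K) | e n = k}) ?_ ?_
  · exact down_fand (down_IsFun _) (down_fall fun _ => down_fimp _ _)
  · refine ⟨⟨fun n => mem_fex_of_mem (e n) (down_meets _) (meets_of_mem rfl),
      fun n a b => fimp_of fun r _ hr => ?_⟩, fun k => fimp_of fun r hr hk => ?_⟩
    · obtain ⟨_, _, _, h1, _⟩ := hr.1 r le_rfl
      obtain ⟨_, _, _, h2, _⟩ := hr.2 r le_rfl
      have h1' : e n = a := h1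
      have h2' : e n = b := h2
      show a = b
      rw [← h1', h2']
    · have h1 : cn k ∈ D := by
        by_contra h
        exact hk r le_rfl (down_InOpen _ _ _ (key k h) _ hr)
      have h2 : k ∈ Set.range e := by rw [← he]; exact Set.mem_insert_of_mem _ h1
      obtain ⟨n, hn⟩ := h2
      exact mem_fex_of_mem n (down_meets _) (meets_of_mem hn)

/-! ### Values of names of functions -/

theorem exists_values {X Y : Type} {h : X → Y → Set (PK K)} {p : (PK K)} (hp : p ∈ IsFun h) :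
    ∃ V : X → Set Y, (∀ x, (V x).Countable) ∧ ∀ x y, ∀ q ≤ p, q ∈ meets (h x y) → y ∈ V x := by
  classical
  refine ⟨fun x => {y | ∃ q ≤ p, q ∈ meets (h x y)}, fun x => ?_, fun x y q hq hy => ⟨q, hq, hy⟩⟩
  by_contra hcon
  have h1 : ¬ Countable {y | ∃ q ≤ p, q ∈ meets (h x y)} := fun hc => hcon hc.to_set
  choose g hg1 hg2 using fun y : {y | ∃ q ≤ p, q ∈ meets (h x y)} => y.2
  obtain ⟨y, y', hne, s, hs1, hs2⟩ := ccc_PK g h1
  exact hne (Subtype.ext (IsFun.unique (down_IsFun _ _ hp _ (hs1.trans (hg1 y)))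
    (down_meets _ _ (hg2 y) _ hs1) (down_meets _ _ (hg2 y') _ hs2)))

theorem not_countable {A : Set K} (hA : ¬ A.Countable) (p : (PK K)) :
    p ∈ fnot (IsCountable (P := (PK K)) fun k => fground (k ∈ A)) := by
  intro q _ hq
  obtain ⟨r, hr, c, hc1, hc2⟩ := mem_fex.1 hq q le_rfl
  obtain ⟨V, hV1, hV2⟩ := exists_values hc1
  apply hA
  refine (Set.countable_iUnion hV1).mono fun a ha => ?_
  obtain ⟨s, hs, h1⟩ := mem_fimp.1 (hc2 a) r le_rfl ha
  obtain ⟨t, ht, n, h2⟩ := mem_fex.1 h1 s le_rfl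
  exact Set.mem_iUnion.2 ⟨n, hV2 n a t (ht.trans hs) h2⟩

theorem regular (hK : Reg K) (p : (PK K)) : p ∈ Regular (PK K) K := by
  intro γ h
  refine fimp_of fun q _ hq => ?_
  obtain ⟨V, hV1, hV2⟩ := exists_values hq
  obtain ⟨b, hb⟩ := hK.bdd (⋃ k : Set.Iio γ, V k.1) (by
    refine lt_of_le_of_lt (mk_iUnion_le_sum_mk) ?_
    refine lt_of_le_of_lt (Cardinal.sum_le_sum _ (fun _ => ℵ₀) fun k => ?_) ?_
    · exact le_aleph0_iff_set_countable.2 (hV1 k.1)
    · rw [Cardinal.sum_const']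
      exact mul_lt_of_lt hK.big.le (hK.seg γ) hK.big)
  refine mem_fex_of_mem b (down_fall fun _ => down_fall fun _ => down_fall fun _ =>
    down_fimp _ _) ?_
  intro k hk l
  refine fimp_of fun r hr hl => ?_
  exact (hb l (Set.mem_iUnion.2 ⟨⟨k, hk⟩, hV2 k l r hr hl⟩)).le

/-! ### The Cohen reals are distinct -/

theorem distinct (p : (PK K)) : p ∈ Distinct wn := by
  classical
  intro k k' hkk'
  refine mem_fex.2 fun q _ => ?_
  have hlt : ∀ a : K, cn a < ⊤ := fun a => WithTop.coe_lt_top _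
  have hne : cn k ≠ cn k' := fun h => hkk' (cn_injective h)
  set N := max (q.1.st (cn k)).length (q.1.st (cn k')).length with hN
  -- prolong the stem at a Cohen coordinate with given values
  have ext : ∀ (a : K) (r : (PK K)) (m : ℕ), ∃ r' : (PK K), r' ≤ r ∧
      r'.1.st (cn a) = r.1.st (cn a) ++ [m] ∧ ∀ η, η ≠ cn a → r'.1.st η = r.1.st η := by
    intro a r m
    refine ⟨⟨push r.1 (cn a) m, push_mem r.2 (hlt a) m⟩, ?_, push_st_self _ _ _,
      fun η hη => push_st_ne _ _ hη⟩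
    exact push_le fun R hR => by
      rw [pr_co r.2.1 (cc_cn a)] at hR
      exact absurd hR (Finset.notMem_empty R)
  have ext' : ∀ (a : K) (r : (PK K)) (M : ℕ), (r.1.st (cn a)).length ≤ M → ∃ r' : (PK K), r' ≤ r ∧
      (r'.1.st (cn a)).length = M ∧ ∀ η, η ≠ cn a → r'.1.st η = r.1.st η := by
    intro a r M hM
    induction M, hM using Nat.le_induction with
    | base => exact ⟨r, le_rfl, rfl, fun _ _ => rfl⟩
    | succ M _ ih =>
      obtain ⟨r', h1, h2, h3⟩ := ih
      obtain ⟨r'', h4, h5, h6⟩ := ext a r' 0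
      exact ⟨r'', h4.trans h1, by rw [h5]; simp [h2], fun η hη => (h6 η hη).trans (h3 η hη)⟩
  obtain ⟨q1, h1, h2, h3⟩ := ext' k q N (le_max_left _ _)
  obtain ⟨q2, h4, h5, h6⟩ := ext' k' q1 N (by rw [h3 _ hne.symm]; exact le_max_right _ _)
  obtain ⟨q3, h7, h8, h9⟩ := ext k q2 0
  obtain ⟨q4, h10, h11, h12⟩ := ext k' q3 1
  have h13 : q4.1.st (cn k) = q2.1.st (cn k) ++ [0] := by rw [h12 _ hne, h8]
  have h14 : q4.1.st (cn k') = q2.1.st (cn k') ++ [1] := by rw [h11, h9 _ hne.symm]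
  have h15 : (q2.1.st (cn k)).length = N := by rw [h6 _ hne, h2]
  refine ⟨q4, h10.trans (h7.trans (h4.trans h1)), N, mem_fex_of_mem false
    (down_fand (down_meets _) (down_meets _)) ⟨meets_of_mem ⟨?_, ?_⟩, meets_of_mem ⟨?_, ?_⟩⟩⟩
  · rw [h13]; simp [h15]
  · rw [h13, List.getD_eq_getElem _ _ (by simp [h15])]
    simp [h15]
  · rw [h14]; simp [h5]
  · rw [h14, List.getD_eq_getElem _ _ (by simp [h5])]
    simp [h5]

end Pool.Agent.Y670.CH
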