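import Mathlib
import Pool.Agent.Y670.CH.Frc

/-!
# The Hechler reals dominate

The same as `Pool.Agent.W635.CHDom`, for an arbitrary well-ordered set `K` of regular uncountable
order type in place of `ω₂`.
-/

namespace Pool.Agent.Y670.CH

open Cardinal Pool.Agent.H652G Pool.Agent.Helper669.Forcing Pool.Agent.W635.CHDefs Pool.Agent.W635.CH

set_option linter.unusedSectionVars false
set_option linter.unusedVariables false

/-- there are enough promises at the Hechler coordinates -/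
theorem rich_SyC {I : Type} [LinearOrder I] [WellFoundedLT I] [OrderTop I] {co : I → Prop} {ξ : I}
    (hξ : ¬ co ξ) (D : List ℕ → ℕ → Rep I → Prop)
    (hD1 : ∀ t n q, D t n q → ∀ q' ∈ Vd (SyC co) ξ, q' ≤ q → D t n q')
    (hD2 : ∀ t n q, D t n q → D t (n + 1) q)
    (hD3 : ∀ t, ∀ q ∈ Vd (SyC co) ξ, ∃ q' ∈ Vd (SyC co) ξ, q' ≤ q ∧ ∃ n, D t n q') :
    ∃ R ∈ (SyC co).RR ξ, ∀ t n, ∀ q ∈ Vd (SyC co) ξ, bs q ξ ⊆ R t n →
      ∃ q' ∈ Vd (SyC co) ξ, q' ≤ q ∧ D t n q' := by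
  have hG : ∀ ξ, Good (SyC co) ξ := good_SyC
  have hA : ∀ t, ∃ A : Set (Ctx.PV (SyC co) ξ), A ⊆ {p | ∃ n, D t n p.1} ∧ A.Countable ∧
      ∀ p, ∃ a ∈ A, Compat a p := by
    intro t
    obtain ⟨A, h1, h2, h3, _⟩ := exists_antichain (Ctx.ccc_PV hG)
      (P := Ctx.PV (SyC co) ξ) {p | ∃ n, D t n p.1} (fun p => by
        obtain ⟨q', h1, h2, n, h3⟩ := hD3 t p.1 p.2
        exact ⟨⟨q', h1⟩, h2, n, h3⟩)
    exact ⟨A, h1, h2, h3⟩
  choose A h1 h2 h3 using hA
  refine ⟨fun t n => ⋃ a ∈ (Subtype.val '' {a | a ∈ A t ∧ D t n a.1} : Set (Rep I)), bs a ξ,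
    ?_, ?_⟩
  · rw [RR_he hξ]
    refine ⟨fun t m => COp_of_countable ?_ ?_, fun t m w hw => ?_, fun t q hq => ?_⟩
    · rintro _ ⟨a, _, rfl⟩; exact a.2
    · exact ((h2 t).mono fun a ha => ha.1).image _
    · simp only [Set.mem_iUnion] at hw ⊢
      obtain ⟨_, ⟨a, ha, rfl⟩, hw⟩ := hw
      exact ⟨a.1, ⟨a, ⟨ha.1, hD2 t m a.1 ha.2⟩, rfl⟩, hw⟩
    · obtain ⟨a, ha, s, hs1, hs2⟩ := h3 t ⟨q, hq⟩
      obtain ⟨n, hn⟩ := h1 t ha
      exact ⟨s.1, s.2, hs2, n, fun w hw => Set.mem_biUnion ⟨a, ⟨ha, hn⟩, rfl⟩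
        (bs_le (show s.1 ≤ a.1 from hs1) ξ hw)⟩
  · intro t n q hq hqR
    obtain ⟨w, hw⟩ := bs_nonempty hG hq
    have h4 := hqR (hw ξ)
    simp only [Set.mem_iUnion] at h4
    obtain ⟨_, ⟨a, ha, rfl⟩, hwa⟩ := h4
    obtain ⟨q', h5, h6, h7⟩ := compat_of_point hG hq a.2 (hw ξ) hwa
    exact ⟨q', h5, h6, hD1 t n a.1 ha.2 q' h5 h7⟩

variable {K : Type} [LinearOrder K] [WellFoundedLT K]

theorem locP_meets' {ζ : WithTop (JK K)} {N : Set (PK K)} (hd : Down N) (hl : LocP ζ N) :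
    LocP ζ (meets N) := by
  intro p hp q hq
  have h1 : glueP (resP q ζ) p ζ ≤ p := glueP_le (resP_le hq (below_res _ _))
  obtain ⟨r, hr, s, hs, hrs⟩ := hp _ h1
  have h2 : resP r ζ ∈ N := hl r (hd s hs r hrs)
  have h3 : resP r ζ ≤ resP q ζ := by
    refine resP_le (hr.trans ?_) (below_res _ _)
    exact glueP_le_left (below_res _ _)
  exact ⟨glueP (resP r ζ) q ζ, glueP_le h3, resP r ζ, h2, glueP_le_left (below_res _ _)⟩

theorem LocP.mono {ζ ζ' : WithTop (JK K)} (h : ζ ≤ ζ') {φ : Set (PK K)} (hd : Down φ) (hl : LocP ζ φ) :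
    LocP ζ' φ := fun p hp => hd _ (hl p hp) _ (res_le_res p.1 h)

theorem locP_wn {ξ : K} {ζ : WithTop (JK K)} (h : cn ξ < ζ) (n : ℕ) (b : Bool) :
    LocP ζ (meets (wn ξ n b)) := by
  refine locP_meets' (down_wn _ _ _) fun p hp => ?_
  have h1 : (resP p ζ).1.st (cn ξ) = p.1.st (cn ξ) := res_st_lt h
  obtain ⟨h2, h3⟩ := hp
  exact ⟨by rw [h1]; exact h2, by rw [h1]; exact h3⟩

/-- the statement that `w ξ` is in some `V n j` with `j ≤ m` provided it is in some `V n j` -/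
def Ph (ξ : K) (V : ℕ → ℕ → List Bool → Set (PK K)) (n m : ℕ) : Set (PK K) :=
  fimp (fex fun j : ℕ => InOpen (wn ξ) (V n j))
    (fex fun j : ℕ => fand (fground (j ≤ m)) (InOpen (wn ξ) (V n j)))

theorem down_Ph (ξ : K) (V : ℕ → ℕ → List Bool → Set (PK K)) (n m : ℕ) : Down (Ph ξ V n m) :=
  down_fimp _ _

theorem rgl_Ph (ξ : K) (V : ℕ → ℕ → List Bool → Set (PK K)) (n m : ℕ) : Rgl (Ph ξ V n m) :=
  rgl_fimp (down_fex _)

theorem Ph_succ {ξ : K} {V : ℕ → ℕ → List Bool → Set (PK K)} {n m : ℕ} {p : (PK K)}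
    (h : p ∈ Ph ξ V n m) : p ∈ Ph ξ V n (m + 1) := by
  refine fimp_of fun q hq hq' => ?_
  have h1 := mem_of_fimp (down_Ph _ _ _ _ _ h _ hq) (down_fex _) (rgl_fex _) hq'
  refine mem_fex.2 fun r hr => ?_
  obtain ⟨s, hs, j, h2, h3⟩ := mem_fex.1 h1 r hr
  exact ⟨s, hs, j, Nat.le_succ_of_le h2, h3⟩

theorem dominating (hK : Reg K) (p : (PK K)) : p ∈ Dominating wn fn := by
  classical
  intro V
  -- the antichains
  have hAnt : ∀ (n m : ℕ) (s : List Bool), ∃ B : Set (PK K), B.Countable ∧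
      (∀ a ∈ B, a ∈ meets (V n m s) ∨ a ∈ fnot (meets (V n m s))) ∧ ∀ p, ∃ a ∈ B, Compat a p := by
    intro n m s
    obtain ⟨B, h1, h2, h3, _⟩ := exists_antichain ccc_PK
      {p : (PK K) | p ∈ meets (V n m s) ∨ p ∈ fnot (meets (V n m s))} (fun p => by
        rcases exists_or_fnot (meets (V n m s)) p with ⟨q, hq, h⟩ | h
        · exact ⟨q, hq, Or.inl h⟩
        · exact ⟨p, le_rfl, Or.inr h⟩)
    exact ⟨B, h2, h1, h3⟩
  choose B hB1 hB2 hB3 using hAnt
  obtain ⟨β, hβ⟩ := exists_level hK (⋃ n, ⋃ m, ⋃ s, B n m s)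
    (Set.countable_iUnion fun n => Set.countable_iUnion fun m => Set.countable_iUnion fun s =>
      hB1 n m s)
  refine mem_fex_of_mem β (down_fall fun _ => down_fall fun _ => down_fall fun _ =>
    down_fimp _ _) ?_
  intro k hk ξ
  have hlt : cn ξ < hn k := cn_lt_hn ξ k
  have hV : ∀ n m s, LocP (hn k) (meets (V n m s)) := fun n m s => by
    refine locP_meets (A := B n m s) (fun a ha => ?_) (hB2 n m s) (hB3 n m s)
    exact (hβ a (Set.mem_iUnion.2 ⟨n, Set.mem_iUnion.2 ⟨m, Set.mem_iUnion.2 ⟨s, ha⟩⟩⟩)).mono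
      (hn_le_hn hk)
  have hIn : ∀ n m, LocP (hn k) (InOpen (wn ξ) (V n m)) := fun n m =>
    LocP.fex (fun s => (hV n m s).fand (LocP.fall fun i => LocP.fall fun _ => locP_wn hlt _ _))
      fun s => down_fand (down_meets _) (down_fall fun _ => down_fall fun _ => down_meets _)
  have hPh : ∀ n m, LocP (hn k) (Ph ξ V n m) := fun n m =>
    LocP.fimp (LocP.fex (fun j => hIn n j) fun j => down_fex _)
      (LocP.fex (fun j => (LocP.fground _).fand (hIn n j)) fun j =>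
        down_fand (down_fground _) (down_fex _)) (down_fex _) (down_fex _)
  have hle : (hn k) ≤ ⊤ := le_top
  obtain ⟨R, hR1, hR2⟩ := rich_SyC (not_cc_hn k)
    (fun t m q => ∃ h : q ∈ Vd (SK K) ⊤, (⟨q, h⟩ : (PK K)) ∈ Ph ξ V t.length m)
    (by
      rintro t n q ⟨h, hq⟩ q' hq' hle'
      exact ⟨Vd_mono hle hq', down_Ph _ _ _ _ (⟨q, h⟩ : (PK K)) hq (⟨q', Vd_mono hle hq'⟩ : (PK K)) hle'⟩)
    (by
      rintro t n q ⟨h, hq⟩
      exact ⟨h, Ph_succ hq⟩)
    (by
      intro t q hq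
      let p0 : (PK K) := ⟨q, Vd_mono hle hq⟩
      rcases exists_or_fnot (fex fun j : ℕ => InOpen (wn ξ) (V t.length j)) p0 with
        ⟨r, hr, h⟩ | h
      · obtain ⟨r', hr', j, h1⟩ := mem_fex.1 h r le_rfl
        have h2 : r' ∈ Ph ξ V t.length j := fimp_of fun s hs _ =>
          mem_fex_of_mem j (down_fand (down_fground _) (down_fex _))
            ⟨show j ≤ j from le_rfl, down_InOpen _ _ _ h1 _ hs⟩
        have h3 := hPh _ _ r' h2
        exact ⟨(resP r' (hn k)).1, resP_mem r' (hn k),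
          resP_le (q := p0) (hr'.trans hr) hq.2, j, (resP r' (hn k)).2, h3⟩
      · exact ⟨q, hq, le_rfl, 0, Vd_mono hle hq, fimp_of fun s hs hs' => absurd hs' (h s hs)⟩)
  refine fimp_of fun q _ hq => ?_
  refine mem_fex.2 fun q1 hq1 => ?_
  obtain ⟨q2, h1, h2, h3⟩ := exists_promise (S := (SK K)) good_SK q1.2
    (WithTop.coe_lt_top (toLex (true, k))) hR1
  refine ⟨⟨q2, h1⟩, h2, (q2.st (hn k)).length, fun n hn' => ?_⟩
  refine mem_fex.2 fun r hr => ?_
  obtain ⟨r', h4, h5, h6, _⟩ := exists_long good_SK r.2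
    (WithTop.coe_lt_top (toLex (true, k))) (n + 1)
  have h7 : n < (r'.st (hn k)).length := h6
  set v := (r'.st (hn k)).getD n 0 with hv
  refine ⟨⟨r', h4⟩, h5, v, meets_of_mem ⟨h7, rfl⟩, ?_⟩
  have h8 : r' ≤ q2 := le_trans h5 hr
  have h9 := (h8 (hn k)).2.2 R h3 n hn' h7
  have hlen : ((r'.st (hn k)).take n).length = n := by
    rw [List.length_take]; omega
  have h10 : (⟨r', h4⟩ : (PK K)) ∈ Ph ξ V n v := by
    refine rgl_Ph _ _ _ _ _ fun s hs => ?_
    have hbs : bs (resP s (hn k)).1 (hn k) ⊆ R ((r'.st (hn k)).take n) v := by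
      have : bs (resP s (hn k)).1 (hn k) = bs s.1 (hn k) := bs_res le_rfl
      rw [this]
      exact (bs_le (show s.1 ≤ r' from hs) _).trans h9
    obtain ⟨q', h11, h12, h13, h14⟩ := hR2 _ _ _ (resP_mem s (hn k)) hbs
    rw [hlen] at h14
    refine ⟨glueP ⟨q', h13⟩ s (hn k), glueP_le (q := ⟨q', h13⟩) h12, ?_⟩
    exact down_Ph _ _ _ _ _ h14 _ (glueP_le_left (q := ⟨q', h13⟩) h11.2)
  have h15 : (⟨r', h4⟩ : (PK K)) ∈ fex fun j : ℕ => InOpen (wn ξ) (V n j) :=
    down_fall (fun _ => down_fex _) _ hq _ ((le_trans h8 h2).trans hq1) n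
  exact mem_of_fimp h10 (down_fex _) (rgl_fex _) h15

/-- the forced principle -/
theorem forced (hK : Reg K) {A A' : Set K} (hA : ¬ A.Countable) (hA' : ¬ A'.Countable)
    (p : (PK K)) : p ∈ ForcedPrinciple (PK K) K A A' := by
  have hd : ∀ w : K → ℕ → Bool → Set (PK K), ∀ f : K → ℕ → ℕ → Set (PK K),
      Down (fand (fall fun k => fand (IsFun (w k)) (IsFun (f k)))
      (fand (Distinct w)
        (fand (fnot (IsCountable fun k => fground (k ∈ A)))
          (fand (fnot (IsCountable fun k => fground (k ∈ A')))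
            (fand (Regular (PK K) K)
              (fand (Concentrated w A) (fand (Concentrated w A') (Dominating w f)))))))) :=
    fun w f => down_fand (down_fall fun k => down_fand (down_IsFun _) (down_IsFun _))
      (down_fand (down_fall fun _ => down_fall fun _ => down_fall fun _ => down_fex _)
        (down_fand (down_fnot _) (down_fand (down_fnot _)
          (down_fand (down_fall fun _ => down_fall fun _ => down_fimp _ _)
            (down_fand (down_fall fun _ => down_fimp _ _)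
              (down_fand (down_fall fun _ => down_fimp _ _)
                (down_fall fun _ => down_fex _)))))))
  refine mem_fex_of_mem wn (down_fex _) (mem_fex_of_mem fn (hd _ _) ?_)
  exact ⟨fun k => ⟨isFun_wn k p, isFun_fn k p⟩, distinct p, not_countable hA p,
    not_countable hA' p, regular hK p, concentrated hA p, concentrated hA' p, dominating hK p⟩

end Pool.Agent.Y670.CH
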