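import Mathlib
import Pool.Agent.Y670.CH.Dom

/-!
# The principle is forced, for a well-ordered set of any regular type above `ω₁`
-/

namespace Pool.Agent.Y670.CH

open Cardinal Pool.Agent.H652G Pool.Agent.Helper669.Forcing Pool.Agent.W635.CHDefs

theorem reg_of_isRegular {κ : Cardinal.{0}} (hκ : κ.IsRegular) (h0 : ℵ₀ < κ) :
    Reg κ.ord.ToType := by
  have hc : #κ.ord.ToType = κ := mk_ord_toType _
  refine ⟨fun T hT => ?_, fun γ => ?_, ?_⟩
  · by_contra hcon
    push Not at hcon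
    have h1 : IsCofinal T := fun b => by
      obtain ⟨s, hs, hb⟩ := hcon b
      exact ⟨s, hs, hb⟩
    have h2 := Order.cof_le h1
    have h4 : Order.cof κ.ord.ToType = κ := by
      rw [Ordinal.cof_toType]
      exact hκ.cof_ord
    rw [h4] at h2
    rw [hc] at hT
    exact absurd hT (not_lt.2 h2)
  · rw [hc]
    exact mk_Iio_ord_toType γ
  · rw [hc]; exact h0

/-- the forcing notion, with the sets `A` and `A'` -/
theorem exists_forcing (κ : Cardinal.{0}) (hκ : κ.IsRegular) (h1κ : ℵ_ 1 < κ) :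
    ∃ (P : Type) (_ : Preorder P) (K : Type) (_ : LinearOrder K)
    (_ : WellFoundedLT K) (A A' : Set K), Nonempty P ∧
      (∀ S : Set P, (∀ p ∈ S, ∀ q ∈ S, p ≠ q → ¬ ∃ r, r ≤ p ∧ r ≤ q) → S.Countable) ∧
      #K = κ ∧ Disjoint A A' ∧
      (∃ γ : K, ∀ k ∈ A ∪ A', k < γ) ∧ ∀ p : P, p ∈ ForcedPrinciple P K A A' := by
  have h0 : ℵ₀ < κ := (aleph0_le_aleph 1).trans_lt h1κ
  have hK := reg_of_isRegular hκ h0
  have hc : #κ.ord.ToType = κ := mk_ord_toType _
  have h1 : #(W1 ⊕ W1) = ℵ_ 1 := by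
    rw [mk_sum]; simp only [lift_id]; rw [mk_W1, add_eq_self (aleph0_le_aleph 1)]
  have h2 : #(W1 ⊕ W1) ≤ #κ.ord.ToType := by
    rw [h1, hc]
    exact h1κ.le
  obtain ⟨e⟩ := h2
  have hun : ¬ Countable W1 := by
    rw [← mk_le_aleph0_iff, mk_W1, not_le, ← aleph_zero]
    exact aleph_lt_aleph.2 (by norm_num)
  have hA : ∀ g : W1 → W1 ⊕ W1, Function.Injective g → ¬ (Set.range fun x => e (g x)).Countable := by
    intro g hg hc
    apply hun
    have h3 : Countable (Set.range fun x => e (g x)) := hc.to_subtype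
    exact Function.Injective.countable (f := fun x => (⟨e (g x), x, rfl⟩ :
      Set.range fun x => e (g x))) fun x y hxy => hg (e.injective (congrArg Subtype.val hxy))
  refine ⟨PK κ.ord.ToType, inferInstance, κ.ord.ToType, inferInstance, inferInstance,
    Set.range fun x => e (Sum.inl x), Set.range fun x => e (Sum.inr x), inferInstance, ?_, hc,
    ?_, ?_,
    fun p => forced hK (hA _ Sum.inl_injective) (hA _ Sum.inr_injective) p⟩
  · intro S hS
    by_contra hcon
    obtain ⟨y, y', hne, h⟩ := ccc_PK (K := κ.ord.ToType) (fun a : S => a.1)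
      (fun h => hcon h.to_set)
    exact hS y.1 y.2 y'.1 y'.2 (fun h => hne (Subtype.ext h)) h
  · rw [Set.disjoint_left]
    rintro _ ⟨x, rfl⟩ ⟨y, hy⟩
    exact absurd (e.injective hy) (by simp)
  · refine hK.bdd _ ?_
    rw [hc]
    refine lt_of_le_of_lt ?_ h1κ
    refine (mk_le_mk_of_subset (t := Set.range e) ?_).trans (mk_range_le.trans h1.le)
    rintro _ (⟨x, rfl⟩ | ⟨x, rfl⟩)
    · exact ⟨_, rfl⟩
    · exact ⟨_, rfl⟩

end Pool.Agent.Y670.CH
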