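import Mathlib
import Pool.Agent.W635.CHZfc
import Pool.Agent.H752R3.Concentrated

/-!
# Consequences of the principle: a hereditarily bad set of reals of size `𝔟 = 𝔡`
-/

namespace Pool.Agent.Y670.CH

open Set Filter Cardinal Pool.Agent.W635.CHDefs Pool.Agent.W635.CHZfc Pool.Agent.H752R3

set_option linter.unusedSectionVars false

/-! ### Countable spaces -/

theorem hurewicz_of_countable {X : Type*} [TopologicalSpace X] [Countable X] : HurewiczSp X := by
  refine hurewicz_of_mod_countable fun U hU => ⟨fun _ => ∅, fun n =>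
    ⟨empty_subset _, finite_empty⟩, Set.to_countable _⟩

theorem hurewicz_prod_of_countable {X Y : Type*} [TopologicalSpace X] [TopologicalSpace Y]
    [Countable X] (hY : HurewiczSp Y) : HurewiczSp (X × Y) :=
  hurewicz_prod_of_concentrated hurewicz_of_countable (Q := Set.univ) (Set.to_countable _)
    (fun U _ h => by
      have : Uᶜ = ∅ := by
        rw [Set.compl_empty_iff]; exact Set.univ_subset_iff.1 h
      rw [this]; exact Set.countable_empty) hY

theorem menger_prod_of_countable {X Y : Type*} [TopologicalSpace X] [TopologicalSpace Y]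
    [Countable X] (hY : MengerSp Y) : MengerSp (X × Y) := by
  classical
  intro U hU
  rcases isEmpty_or_nonempty X with hemp | hne
  · refine ⟨fun _ => ∅, fun n => ⟨empty_subset _, Set.finite_empty⟩, ?_⟩
    rw [eq_univ_iff_forall]
    exact fun z => hemp.elim z.1
  obtain ⟨x, hx⟩ := exists_surjective_nat X
  -- the traces
  have h1 : ∀ j, ∃ F : ℕ → Set (Set (X × Y)), (∀ n, F n ⊆ U (Nat.pair j n) ∧ (F n).Finite) ∧
      ∀ y, ∃ n, (x j, y) ∈ ⋃₀ F n := by
    intro j
    let tr : Set (X × Y) → Set Y := fun u => {y | (x j, y) ∈ u}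
    obtain ⟨G, hG1, hG2⟩ := hY (fun n => tr '' U (Nat.pair j n)) (fun n => ⟨by
      rintro _ ⟨u, hu, rfl⟩
      exact ((hU _).1 u hu).preimage (Continuous.prodMk_right (x j)), by
      rw [eq_univ_iff_forall]
      intro y
      have : (x j, y) ∈ ⋃₀ U (Nat.pair j n) := by rw [(hU _).2]; trivial
      obtain ⟨u, hu, hy⟩ := this
      exact ⟨tr u, ⟨u, hu, rfl⟩, hy⟩⟩)
    have h2 : ∀ n, ∃ F ⊆ U (Nat.pair j n), F.Finite ∧ tr '' F = G n := by
      intro n
      obtain ⟨F, h3, h4, h5⟩ := (Set.exists_subset_image_finite_and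
        (s := U (Nat.pair j n)) (f := tr) (p := fun T => T = G n)).1
        ⟨G n, (hG1 n).1, (hG1 n).2, rfl⟩
      exact ⟨F, h3, h4, h5⟩
    choose F hF1 hF2 hF3 using h2
    refine ⟨F, fun n => ⟨hF1 n, hF2 n⟩, fun y => ?_⟩
    have h3 : y ∈ ⋃ n, ⋃₀ G n := by rw [hG2]; trivial
    obtain ⟨n, hn⟩ := mem_iUnion.1 h3
    rw [← hF3 n] at hn
    obtain ⟨_, ⟨u, hu, rfl⟩, hy⟩ := hn
    exact ⟨n, u, hu, hy⟩
  choose F hF1 hF2 using h1
  refine ⟨fun m => F (Nat.unpair m).1 (Nat.unpair m).2, fun m => ?_, ?_⟩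
  · have := hF1 (Nat.unpair m).1 (Nat.unpair m).2
    rwa [Nat.pair_unpair] at this
  · rw [eq_univ_iff_forall]
    rintro ⟨a, y⟩
    obtain ⟨j, rfl⟩ := hx a
    obtain ⟨n, hn⟩ := hF2 j y
    refine mem_iUnion.2 ⟨Nat.pair j n, ?_⟩
    simpa using hn

/-! ### The product is not Lindelöf -/

/-- The product of `X` with `Mich Z X` is not Lindelöf when `X` is uncountable and disjoint from
`Z`. -/
theorem not_lindelof_prod {Z X : Set ℝ} (hX : ¬ X.Countable) :
    ¬ LindelofSpace (X × Mich Z X) := by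
  classical
  intro hL
  let pt : X → Mich Z X := fun x => ⟨x.1, Or.inr x.2⟩
  let O : X → Set (X × Mich Z X) := fun x => {p | p.2 = pt x}
  have hO : ∀ x, IsOpen (O x) := fun x =>
    (Mich.isOpen_singleton (y := pt x) x.2).preimage continuous_snd
  let C : Set (X × Mich Z X) := {p | p.2.1 ≠ p.1.1}
  have hC : IsOpen C := by
    have : IsClosed {p : X × Mich Z X | p.2.1 = p.1.1} :=
      isClosed_eq ((Mich.continuous_val Z X).comp continuous_snd)
        (continuous_subtype_val.comp continuous_fst)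
    exact this.isOpen_compl
  obtain ⟨T, hT1, hT2⟩ := (isLindelof_univ (X := X × Mich Z X)).elim_countable_subcover
    (fun o : Option X => o.elim C O) (fun o => by
      rcases o with _ | x
      · exact hC
      · exact hO x) (by
      intro p _
      by_cases hp : p.2.1 = p.1.1
      · exact mem_iUnion.2 ⟨some p.1, Subtype.ext hp⟩
      · exact mem_iUnion.2 ⟨none, hp⟩)
  apply hX
  have hsub : ∀ x : X, some x ∈ T := by
    intro x
    have : (x, pt x) ∈ ⋃ i ∈ T, (fun o : Option X => o.elim C O) i := hT2 trivial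
    obtain ⟨o, ho, hxo⟩ := mem_iUnion₂.1 this
    rcases o with _ | x'
    · exact absurd rfl hxo
    · have h4 : pt x = pt x' := hxo
      have h5 : x = x' := Subtype.ext (congrArg (fun y : Mich Z X => y.1) h4)
      rw [h5]; exact ho
  have h6 : (Set.univ : Set X).Countable := by
    refine (hT1.preimage (f := (some : X → Option X)) (Option.some_injective X)).mono ?_
    intro x _
    exact hsub x
  rw [← Set.countable_coe_iff]
  exact Set.countable_univ_iff.1 h6

theorem nhds_mich {Z X : Set ℝ} (y : Mich Z X) (hy : y.1 ∉ X) :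
    nhds y = Filter.comap (fun y : Mich Z X => y.1) (nhds y.1) := by
  apply le_antisymm
  · exact (Mich.continuous_val Z X).continuousAt.le_comap
  · intro V hV
    obtain ⟨V', h1, h2, h3⟩ := mem_nhds_iff.1 hV
    rcases Mich.isOpen_iff.1 h2 y h3 with h | ⟨G, h4, h5, h6⟩
    · exact absurd h hy
    · exact ⟨G, h4.mem_nhds h5, fun w hw => h1 (h6 w hw)⟩

theorem firstCountable_mich (Z X : Set ℝ) : FirstCountableTopology (Mich Z X) := by
  refine ⟨fun y => ?_⟩
  by_cases hy : y.1 ∈ X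
  · have : nhds y = pure y := (isOpen_singleton_iff_nhds_eq_pure y).1 (Mich.isOpen_singleton hy)
    rw [this]; infer_instance
  · rw [nhds_mich y hy]; infer_instance

/-! ### The principle -/

section

variable {K : Type} [LinearOrder K] [WellFoundedLT K] {A A' : Set K} {w : K → ℕ → Bool}
  {f : K → ℕ → ℕ}

/-- A space which maps to the set of the points `w k` and is Lindelöf modulo countable sets is
Hurewicz. -/
theorem hurewicz_of_conc (h : Principle K A A' w f) {T : Type} [TopologicalSpace T] (v : T → ℝ)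
    (hv : ∀ y, ∃ k, v y = emb (w k))
    (hU : ∀ U : Set (Set T), (∀ u ∈ U, IsOpen u) → ⋃₀ U = Set.univ →
      {y | ¬ ∃ G : Set ℝ, IsOpen G ∧ v y ∈ G ∧ ∃ u ∈ U, v ⁻¹' G ⊆ u}.Countable) :
    HurewiczSp T := by
  classical
  refine hurewicz_of_mod_countable fun U hUU => ?_
  rcases isEmpty_or_nonempty T with hemp | ⟨⟨t0⟩⟩
  · exact ⟨fun _ => ∅, fun n => ⟨empty_subset _, Set.finite_empty⟩, Set.to_countable _⟩
  have hne : ∀ n, ∃ u, u ∈ U n := by
    intro n
    have : t0 ∈ ⋃₀ U n := by rw [(hUU n).2]; trivial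
    obtain ⟨u, hu, _⟩ := this
    exact ⟨u, hu⟩
  -- Euclidean open sets
  have h1 : ∀ n, ∃ (G : ℕ → Set ℝ) (u : ℕ → Set T), (∀ i, IsOpen (G i)) ∧ (∀ i, u i ∈ U n) ∧
      (∀ i, v ⁻¹' G i ⊆ u i) ∧ {y | ¬ ∃ i, v y ∈ G i}.Countable := by
    intro n
    obtain ⟨u0, hu0⟩ := hne n
    let 𝒢 : Set (Set ℝ) := insert ∅ {G | IsOpen G ∧ ∃ u ∈ U n, v ⁻¹' G ⊆ u}
    have h𝒢 : ∀ G ∈ 𝒢, IsOpen G := by
      rintro G (rfl | hG)
      · exact isOpen_empty
      · exact hG.1
    obtain ⟨S, hS1, hS2, hS3⟩ := TopologicalSpace.isOpen_sUnion_countable 𝒢 h𝒢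
    have hS2' : insert ∅ S ⊆ 𝒢 := Set.insert_subset (mem_insert _ _) hS2
    obtain ⟨G, hG⟩ := (hS1.insert ∅).exists_eq_range ⟨∅, mem_insert _ _⟩
    have hG' : ∀ i, G i ∈ 𝒢 := fun i => hS2' (hG ▸ mem_range_self i)
    have h2 : ∀ i, ∃ u ∈ U n, v ⁻¹' G i ⊆ u := by
      intro i
      rcases hG' i with h | h
      · exact ⟨u0, hu0, by rw [h]; simp⟩
      · exact h.2
    choose u hu1 hu2 using h2
    refine ⟨G, u, fun i => h𝒢 _ (hG' i), hu1, hu2, ?_⟩
    refine (hU (U n) (hUU n).1 (hUU n).2).mono ?_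
    rintro y hy ⟨G', h3, h4, h5⟩
    apply hy
    have h6 : v y ∈ ⋃₀ S := by
      rw [hS3]
      exact ⟨G', Or.inr ⟨h3, h5⟩, h4⟩
    obtain ⟨G'', h7, h8⟩ := h6
    have h9 : G'' ∈ Set.range G := by rw [← hG]; exact mem_insert_of_mem _ h7
    obtain ⟨i, rfl⟩ := h9
    exact ⟨i, h8⟩
  choose G u hG hu1 hu2 hC using h1
  -- codes
  let V : ℕ → ℕ → Set (List Bool) := fun n m =>
    {s | ∀ y : ℕ → Bool, (∀ i < s.length, y i = s.getD i false) → emb y ∈ G n m}
  have hV : ∀ n m k, InO (w k) (V n m) ↔ emb (w k) ∈ G n m := by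
    intro n m k
    constructor
    · rintro ⟨s, hs, hs'⟩
      exact hs (w k) hs'
    · intro hk
      obtain ⟨s, h2, h3⟩ := exists_init ((hG n m).preimage continuous_emb) (x := w k) hk
      exact ⟨s, h3, h2⟩
  obtain ⟨β, hβ⟩ := h.dominating V
  refine ⟨fun n => u n '' {i | i ≤ f β n}, fun n => ⟨?_, (finite_le_nat _).image _⟩, ?_⟩
  · rintro _ ⟨i, _, rfl⟩
    exact hu1 n i
  · refine (countable_iUnion hC).mono ?_
    intro y hy
    by_contra hcon
    apply hy
    have hcon' : ∀ n, ∃ i, v y ∈ G n i := by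
      intro n
      by_contra h3
      exact hcon (mem_iUnion.2 ⟨n, h3⟩)
    obtain ⟨k, hk⟩ := hv y
    obtain ⟨N, hN⟩ := hβ β le_rfl k fun n => by
      obtain ⟨i, hi⟩ := hcon' n
      exact ⟨i, (hV n i k).2 (hk ▸ hi)⟩
    filter_upwards [eventually_ge_atTop N] with n hn
    obtain ⟨m, hm, hm'⟩ := hN n hn
    have h3 : v y ∈ G n m := by rw [hk]; exact (hV n m k).1 hm'
    exact ⟨u n m, ⟨m, hm, rfl⟩, hu2 n m h3⟩

theorem emb_w_injective (h : Principle K A A' w f) : Function.Injective fun k => emb (w k) := by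
  intro k k' hkk
  by_contra hne
  obtain ⟨n, hn⟩ := h.distinct k k' hne
  exact hn (congrFun (emb_injective hkk) n)

/-- all sets of points `w k` are Hurewicz -/
theorem hurewicz_sub (h : Principle K A A' w f) {X : Set ℝ}
    (hX : X ⊆ Set.range fun k => emb (w k)) : HurewiczSp X := by
  refine hurewicz_of_conc h (fun y : X => (y : ℝ)) (fun y => ?_) fun U hU hc => ?_
  · obtain ⟨k, hk⟩ := hX y.2
    exact ⟨k, hk.symm⟩
  · have : {y : X | ¬ ∃ G : Set ℝ, IsOpen G ∧ (y : ℝ) ∈ G ∧ ∃ u ∈ U,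
        (fun y : X => (y : ℝ)) ⁻¹' G ⊆ u} = ∅ := by
      rw [eq_empty_iff_forall_notMem]
      intro y hy
      apply hy
      have h1 : y ∈ ⋃₀ U := by rw [hc]; trivial
      obtain ⟨u, hu, hyu⟩ := h1
      obtain ⟨G, hG, rfl⟩ := isOpen_induced_iff.1 (hU u hu)
      exact ⟨G, hG, hyu, _, hu, subset_rfl⟩
    rw [this]
    exact countable_empty

/-- `Mich Z X` is Hurewicz for `Z` the set of the `w k` with `k ∈ A'` and `X` any set of other
points `w k` -/
theorem hurewicz_mich (h : Principle K A A' w f) {X : Set ℝ}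
    (hX : X ⊆ (fun k => emb (w k)) '' A'ᶜ) :
    HurewiczSp (Mich ((fun k => emb (w k)) '' A') X) := by
  set e : K → ℝ := fun k => emb (w k) with he
  have hZ : ∀ G : Set ℝ, IsOpen G → e '' A' ⊆ G → (X \ G).Countable := by
    intro G hG hZG
    let O : Set (List Bool) := {s | ∀ y : ℕ → Bool, (∀ i < s.length, y i = s.getD i false) →
      emb y ∈ G}
    have h1 : ∀ k, e k ∈ G → InO (w k) O := by
      intro k hk
      obtain ⟨s, h2, h3⟩ := exists_init (hG.preimage continuous_emb) (x := w k) hk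
      exact ⟨s, h3, h2⟩
    have h2 : ∀ k, InO (w k) O → e k ∈ G := by
      rintro k ⟨s, hs, hs'⟩
      exact hs (w k) hs'
    refine ((h.concentrated' O fun k hk => h1 k (hZG ⟨k, hk, rfl⟩)).image e).mono ?_
    rintro x ⟨hx, hkG⟩
    obtain ⟨k, _, rfl⟩ := hX hx
    exact ⟨k, fun hk => hkG (h2 k hk), rfl⟩
  have hZX : Disjoint (e '' A') X := by
    rw [disjoint_left]
    rintro _ ⟨k, hk, rfl⟩ hx
    obtain ⟨k', hk', he'⟩ := hX hx
    have := emb_w_injective h he'
    exact hk' (this ▸ hk)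
  refine hurewicz_of_conc h (fun y : Mich (e '' A') X => y.1) (fun y => ?_) fun U hU hc => ?_
  · rcases y.2 with ⟨k, _, hk⟩ | hy
    · exact ⟨k, hk.symm⟩
    · obtain ⟨k, _, hk⟩ := hX hy
      exact ⟨k, hk.symm⟩
  · let 𝒢 : Set (Set ℝ) := {G | IsOpen G ∧ ∃ u ∈ U, (fun y : Mich (e '' A') X => y.1) ⁻¹' G ⊆ u}
    have hZG : e '' A' ⊆ ⋃₀ 𝒢 := by
      intro z hz
      have h1 : (⟨z, Or.inl hz⟩ : Mich (e '' A') X) ∈ ⋃₀ U := by rw [hc]; trivial
      obtain ⟨u, hu, hzu⟩ := h1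
      rcases Mich.isOpen_iff.1 (hU u hu) _ hzu with h2 | ⟨G, h2, h3, h4⟩
      · exact absurd h2 (disjoint_left.1 hZX hz)
      · exact ⟨G, ⟨h2, u, hu, fun y hy => h4 y hy⟩, h3⟩
    have h1 := hZ (⋃₀ 𝒢) (isOpen_sUnion fun G hG => hG.1) hZG
    refine (h1.preimage (f := fun y : Mich (e '' A') X => y.1) Subtype.val_injective).mono ?_
    intro y hy
    have hy' : y.1 ∉ ⋃₀ 𝒢 := by
      rintro ⟨G, hG, hyG⟩
      exact hy ⟨G, hG.1, hyG, hG.2⟩
    rcases y.2 with h2 | h2
    · exact absurd (hZG h2) hy'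
    · exact ⟨h2, hy'⟩

/-- The set of all `w k` with `k ∉ A'`, and the set of all `w k` with `k ∈ A'`. -/
theorem exists_hereditary (h : Principle K A A' w f)
    (hγ : ∃ γ : K, ∀ k ∈ A ∪ A', k < γ) :
    ∃ W Z : Set ℝ, #W = #K ∧ #Z < #K ∧ Disjoint Z W ∧ ℵ_ 1 < #K ∧
      (∀ X ⊆ W, HurewiczSp X) ∧ ∀ X ⊆ W, HurewiczSp (Mich Z X) := by
  obtain ⟨γ, hγ⟩ := hγ
  have he := emb_w_injective h
  have h1 : #A' < #K :=
    (mk_le_mk_of_subset (t := Iio γ) fun k hk => hγ k (Or.inr hk)).trans_lt (mk_Iio_lt h γ)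
  have hunc : ℵ_ 1 ≤ #A' := by
    have h2 : ℵ₀ < #A' := by
      rw [← not_le]
      exact fun h2 => h.uncountable' (le_aleph0_iff_set_countable.1 h2)
    rw [← succ_aleph0]
    exact Order.succ_le_of_lt h2
  have hinf : Infinite K := by
    rw [infinite_iff]
    exact ((aleph0_le_aleph 1).trans hunc).trans h1.le
  refine ⟨(fun k => emb (w k)) '' A'ᶜ, (fun k => emb (w k)) '' A', ?_, ?_, ?_,
    hunc.trans_lt h1, ?_, ?_⟩
  · rw [mk_image_eq he]
    exact mk_compl_of_infinite _ h1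
  · exact mk_image_le.trans_lt h1
  · rw [disjoint_image_iff he]
    exact disjoint_compl_right
  · intro X hX
    exact hurewicz_sub h (hX.trans (image_subset_range _ _))
  · intro X hX
    exact hurewicz_mich h hX

end

end Pool.Agent.Y670.CH
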